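import Pool.Agent.R707.Conc1

/-!
# Verdier goodness is not invariant under chain homotopy

The counterexample lives in the homotopy category of complexes of `ℤ/64`-modules.  Let `P` be the
module `ℤ/64` in degree `0`, and take exact triangles `P -4-> P -v-> Z -w-> P⟦1⟧` and
`P -2-> P -v'-> Z' -w'-> P⟦1⟧`.  There is `ψ : P⟦1⟧ ⟶ Z'` with `w' ψ = 32`.  The maps
`(8, 4, ψ w)` and `(0, 0, ψ w)` of exact triangles are chain homotopic (by `k₁ = 2`, `k₂ = 0`,
`k₃ = 0`).  The first one is Verdier good (whatever the choice of the auxiliary exact triangles),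
the second one is not (again whatever the choice).
-/

set_option autoImplicit false

open CategoryTheory Limits Pretriangulated Triangulated Pool.Agent.R707

theorem Pool.Agent.Results.MP_f89e7b_al.HomotopyFails.result :
    ∃ (T T' : Triangle (KMod (ZMod 64))) (hT : T ∈ distTriang (KMod (ZMod 64)))
      (hT' : T' ∈ distTriang (KMod (ZMod 64))) (φ ψ : T ⟶ T'),
      ChainHomotopic φ ψ ∧ (∀ D : Aux φ, VerdierGoodWith hT hT' φ D) ∧
      ∀ D : Aux ψ, ¬ VerdierGoodWith hT hT' ψ D := by
  obtain ⟨Z, v, w, Z', v', w', ψ, hT, hT', hψ⟩ := exists_data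
  exact ⟨_, _, hT, hT', exMap hT hT' ψ hψ, exMap0 hT ψ hψ, exMap_homotopic hT hT' ψ hψ,
    exMap_verdierGood hyp64 hT hT' ψ hψ, exMap0_not_verdierGood hyp64 hT hT' ψ hψ⟩
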